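import Pool.Agent.Helper53_C4W.Idn
import Pool.Agent.Helper53_C4W.Stm2
import Pool.Agent.Helper82_C4.Psh
import Pool.Agent.Helper82_C4.Lla

/-! # C4 theorem, module ASM: good labels give the classes of all hosts -/

set_option autoImplicit false

open scoped BigOperators Classical

noncomputable section

namespace Pool.Agent.C4W.H86A

open Finset

variable {V : Type} [Fintype V] {M : ℕ}

/-! ### degrees of a host -/

theorem od_hst (A : Set (V × V)) (D : Dat V M) (h : V → ZMod M) (x : V) :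
    (od (hst A D.I h) x : ℝ) = ∑ y ∈ outN A x, Xi D h x y := by
  rw [H82.od_eq]
  unfold Xi
  rw [Finset.sum_boole]
  congr 2
  ext y
  simp only [hst, outN, mem_filter, mem_univ, true_and]

theorem ow_hst (A : Set (V × V)) (D : Dat V M) (h : V → ZMod M) (x : V) (w : V × V → ℝ) :
    ow (hst A D.I h) w x = ∑ y ∈ outN A x, Xi D h x y * w (x, y) := by
  rw [H82.ow_eq]
  have h1 : (univ.filter fun y => (x, y) ∈ hst A D.I h) =
      (outN A x).filter fun y => h y - h x ∈ D.I := by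
    ext y
    simp only [hst, outN, mem_filter, mem_univ, true_and]
  rw [h1, sum_filter]
  refine sum_congr rfl fun y _ => ?_
  unfold Xi
  split_ifs <;> simp

/-- the term `P f` -/
theorem Pf_eq (D : Dat V M) (h : V → ZMod M) (x : V) (hs : 0 < D.s) (hI : D.I.Nonempty) :
    fld (.P .f) D h x (h x) ∅ = - ((D.s : ℝ)⁻¹ * ((D.s : ℝ)⁻¹ *
      ∑ y ∈ outN D.O x, D.fm y * (D.s / (inN D.O y).card))) := by
  have hI' : (D.I.card : ℝ) ≠ 0 := by
    have := Finset.card_pos.2 hI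
    exact_mod_cast this.ne'
  have hs' : (D.s : ℝ) ≠ 0 := by exact_mod_cast hs.ne'
  have e0 : fld (.P .f) D h x (h x) ∅ = opP 0 fF D h x (h x) ∅ := rfl
  rw [e0]
  simp only [opP, sdiff_empty, sum_const, nsmul_eq_mul, fF, Dat.kap, Dat.Z]
  have e1 : ∀ y, (outN D.rev.O y) = inN D.O y := by
    intro y
    ext z
    simp only [outN, inN, mem_filter, mem_univ, true_and]
    rfl
  have e2 : (D.rev).s = D.s := rfl
  have e3 : (D.rev).fp = D.fm := rfl
  simp only [e1, e2, e3, Nat.cast_zero, sub_zero]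
  rw [← mul_assoc (D.s : ℝ)⁻¹, Finset.mul_sum, Finset.mul_sum, ← Finset.sum_neg_distrib]
  refine sum_congr rfl fun y _ => ?_
  field_simp

/-- the row sums of the weights -/
theorem row_main [Fact M.Prime] (D : Dat V M) (h : V → ZMod M) (hI1 : D.i1 ∈ D.I)
    (hI2 : D.i2 ∈ D.I) (h12 : D.i1 ≠ D.i2) (q : ℕ) (hq : 0 < q) (x : V) (hok : Ok D x)
    (E1 E2 : ℝ) (he : |err q D h x - fld (.P .f) D h x (h x) ∅| ≤ E1)
    (hm : |∑ y ∈ outN D.O x, D.fm y * (D.s / (inN D.O y).card)| ≤ D.s * E2) :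
    |(od (hst D.R D.I h) x : ℝ) + ow (hst D.O D.I h) (fun e => wgt q D h e.1 e.2) x -
      (D.I.card / M : ℝ) * ((outN D.R x).card + (∑ y ∈ outN D.O x, D.β x y) - D.fp x)| ≤
      (D.I.card / M : ℝ) * (D.s * E1 + E2) := by
  have hM : (0 : ℝ) < M := by exact_mod_cast (Fact.out : M.Prime).pos
  have hs : (0 : ℝ) < D.s := by exact_mod_cast hok.hs
  have hI : (0 : ℝ) < D.I.card := by exact_mod_cast Finset.card_pos.2 hok.hI
  have hid := idn D h hI1 hI2 h12 q hq x hok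
  rw [od_hst, ow_hst]
  unfold rowO at hid
  set a := ∑ y ∈ outN D.R x, Xi D h x y with ha
  set b := ∑ y ∈ outN D.O x, Xi D h x y * wgt q D h x y with hb
  set c := ((outN D.R x).card : ℝ) + (∑ y ∈ outN D.O x, D.β x y) - D.fp x with hc
  set er := err q D h x with her
  have hZ : D.Z = D.I.card * D.s := rfl
  rw [hZ] at hid
  have hPf := Pf_eq D h x hok.hs hok.hI
  set pf := fld (.P .f) D h x (h x) ∅ with hpf
  have hpf' : |pf| ≤ (D.s : ℝ)⁻¹ * E2 := by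
    rw [hPf, abs_neg, abs_mul, abs_mul, abs_of_pos (inv_pos.2 hs)]
    refine mul_le_mul_of_nonneg_left ?_ (inv_pos.2 hs).le
    calc (D.s : ℝ)⁻¹ * |∑ y ∈ outN D.O x, D.fm y * (D.s / (inN D.O y).card)| ≤
        (D.s : ℝ)⁻¹ * (D.s * E2) := mul_le_mul_of_nonneg_left hm (inv_pos.2 hs).le
      _ = E2 := by rw [← mul_assoc, inv_mul_cancel₀ hs.ne', one_mul]
  have hkey : a + b - (D.I.card / M : ℝ) * c = (D.I.card / M : ℝ) * (D.s * er) := by
    have h1 : (M : ℝ) / (D.I.card * D.s) * (a + b) = c / D.s + er := by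
      rw [mul_add]; exact hid
    have h2 : a + b = (D.I.card * D.s / M : ℝ) * ((M : ℝ) / (D.I.card * D.s) * (a + b)) := by
      field_simp
    rw [h2, h1]
    field_simp
    ring
  have herr : |er| ≤ E1 + (D.s : ℝ)⁻¹ * E2 := by
    calc |er| = |(er - pf) + pf| := by ring_nf
      _ ≤ |er - pf| + |pf| := abs_add_le _ _
      _ ≤ _ := add_le_add he hpf'
  show |a + b - (D.I.card / M : ℝ) * c| ≤ _
  rw [hkey, abs_mul, abs_of_pos (div_pos hI hM), abs_mul, abs_of_pos hs]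
  refine mul_le_mul_of_nonneg_left ?_ (div_pos hI hM).le
  calc (D.s : ℝ) * |er| ≤ D.s * (E1 + (D.s : ℝ)⁻¹ * E2) :=
      mul_le_mul_of_nonneg_left herr hs.le
    _ = D.s * E1 + E2 := by rw [mul_add, ← mul_assoc, mul_inv_cancel₀ hs.ne', one_mul]

/-! ### the average of the label free field of the columns -/

theorem avg_fm {γ : ℝ} {O : Set (V × V)} {Zm : Finset V} {k s i0 : ℕ} (hM : 0 < M) (hi0 : 0 < i0)
    (hs : 0 < s) (hreg : NReg k s O) (x : V)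
    (hz : |(((outN O x) ∩ Zm).card : ℝ) - zet γ k M i0 * (outN O x).card| ≤
      zet γ k M i0 * s / 8000) (f fl u : V → ℝ) {a b c e L : ℝ}
    (ha : a = (k : ℝ) ^ (-γ)) (ha0 : 0 < a) (hb0 : 0 ≤ b) (hL0 : 0 ≤ L)
    (he : e = (k : ℝ) ^ (-0.4 : ℝ)) (he0 : 0 ≤ e)
    (n1 : e ≤ 1 / 2) (n2 : 4 * b + c ≤ a / 8000)
    (n3 : 2 * e * (2 * (L + 2 * b + a) + 3 * a) ≤ a / 8000)
    (hf : ∀ y, f y = fl y + u y - M * eps γ k M + if y ∈ Zm then (M : ℝ) / (2 * i0) else 0)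
    (hu : ∀ y, |u y| ≤ 2 * b) (hfl : ∀ y, |fl y| ≤ L)
    (hsum : |∑ y ∈ outN O x, fl y| ≤ s * c) :
    |∑ y ∈ outN O x, f y * (s / (inN O y).card)| ≤ s * (a / 2000) := by
  have hM' : (0 : ℝ) < M := by exact_mod_cast hM
  have hi' : (0 : ℝ) < i0 := by exact_mod_cast hi0
  have hs' : (0 : ℝ) < s := by exact_mod_cast hs
  have hMe : (M : ℝ) * eps γ k M = a := by
    unfold eps
    rw [← ha]
    field_simp
  have hz0 : (M : ℝ) / (2 * i0) * zet γ k M i0 = a := by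
    unfold zet
    rw [← hMe]
    field_simp
  set P := outN O x with hP
  have hcard : (P.card : ℝ) ≤ 2 * s := by
    have h1 := (abs_le.1 (hreg x).1).2
    rw [← he] at h1
    nlinarith
  set n := ((P ∩ Zm).card : ℝ) with hn
  have hcM : 0 < (M : ℝ) / (2 * i0) := by positivity
  have hzz : 0 ≤ zet γ k M i0 := by
    have h1 : zet γ k M i0 = a / ((M : ℝ) / (2 * i0)) := by
      rw [← hz0]
      field_simp
    rw [h1]
    positivity
  have hnP : (M : ℝ) / (2 * i0) * n ≤ 3 * s * a := by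
    have h1 := (abs_le.1 hz).2
    have h2 : n ≤ zet γ k M i0 * (3 * s) := by nlinarith
    calc (M : ℝ) / (2 * i0) * n ≤ (M : ℝ) / (2 * i0) * (zet γ k M i0 * (3 * s)) :=
        mul_le_mul_of_nonneg_left h2 hcM.le
      _ = ((M : ℝ) / (2 * i0) * zet γ k M i0) * (3 * s) := by ring
      _ = 3 * s * a := by rw [hz0]; ring
  have hspec : ∑ y ∈ P, (if y ∈ Zm then (M : ℝ) / (2 * i0) else 0) = (M : ℝ) / (2 * i0) * n := by
    rw [← Finset.sum_filter, Finset.filter_mem_eq_inter, Finset.sum_const, nsmul_eq_mul]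
    ring
  have hdev : |(M : ℝ) / (2 * i0) * n - P.card * a| ≤ s * (a / 8000) := by
    have h1 : (M : ℝ) / (2 * i0) * n - P.card * a =
        (M : ℝ) / (2 * i0) * (n - zet γ k M i0 * P.card) := by
      rw [mul_sub, ← mul_assoc, hz0]; ring
    rw [h1, abs_mul, abs_of_pos hcM]
    calc (M : ℝ) / (2 * i0) * |n - zet γ k M i0 * P.card| ≤
        (M : ℝ) / (2 * i0) * (zet γ k M i0 * s / 8000) := mul_le_mul_of_nonneg_left hz hcM.le
      _ = ((M : ℝ) / (2 * i0) * zet γ k M i0) * s / 8000 := by ring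
      _ = s * (a / 8000) := by rw [hz0]; ring
  have hsu : |∑ y ∈ P, u y| ≤ s * (4 * b) := by
    calc |∑ y ∈ P, u y| ≤ ∑ y ∈ P, |u y| := Finset.abs_sum_le_sum_abs _ _
      _ ≤ ∑ _y ∈ P, 2 * b := Finset.sum_le_sum fun y _ => hu y
      _ = P.card * (2 * b) := by rw [Finset.sum_const, nsmul_eq_mul]
      _ ≤ (2 * s) * (2 * b) := mul_le_mul_of_nonneg_right hcard (by linarith)
      _ = s * (4 * b) := by ring
  have hfs : ∑ y ∈ P, f y = (∑ y ∈ P, fl y) + (∑ y ∈ P, u y) +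
      ((M : ℝ) / (2 * i0) * n - P.card * a) := by
    rw [← hspec]
    have : ∑ y ∈ P, f y = ∑ y ∈ P, (fl y + u y - M * eps γ k M +
      if y ∈ Zm then (M : ℝ) / (2 * i0) else 0) := Finset.sum_congr rfl fun y _ => hf y
    rw [this, Finset.sum_add_distrib, Finset.sum_sub_distrib, Finset.sum_add_distrib,
      Finset.sum_const, nsmul_eq_mul, hMe]
    ring
  have h1 : |∑ y ∈ P, f y| ≤ s * (a / 4000) := by
    rw [hfs]
    calc _ ≤ |(∑ y ∈ P, fl y) + (∑ y ∈ P, u y)| + |(M : ℝ) / (2 * i0) * n - P.card * a| :=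
        abs_add_le _ _
      _ ≤ (|∑ y ∈ P, fl y| + |∑ y ∈ P, u y|) + |(M : ℝ) / (2 * i0) * n - P.card * a| := by
        linarith [abs_add_le (∑ y ∈ P, fl y) (∑ y ∈ P, u y)]
      _ ≤ (s * c + s * (4 * b)) + s * (a / 8000) := by linarith
      _ = s * (4 * b + c + a / 8000) := by ring
      _ ≤ s * (a / 4000) := by
        refine mul_le_mul_of_nonneg_left ?_ hs'.le
        linarith
  have hcy : ∀ y, |(s : ℝ) / (inN O y).card - 1| ≤ 2 * e := by
    intro y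
    have h2 := (hreg y).2
    rw [← he] at h2
    have h3 := abs_le.1 h2
    have h4 : (s : ℝ) / 2 ≤ (inN O y).card := by nlinarith
    have h5 : (0 : ℝ) < (inN O y).card := by linarith
    have h6 : (s : ℝ) / (inN O y).card - 1 = (s - (inN O y).card) / (inN O y).card := by
      field_simp
    rw [h6, abs_div, abs_of_pos h5, div_le_iff₀ h5, abs_sub_comm]
    calc _ ≤ (s : ℝ) * e := h2
      _ = 2 * e * (s / 2) := by ring
      _ ≤ 2 * e * (inN O y).card := mul_le_mul_of_nonneg_left h4 (by linarith)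
  have hsf : ∑ y ∈ P, |f y| ≤ s * (2 * (L + 2 * b + a) + 3 * a) := by
    have h2 : ∀ y ∈ P, |f y| ≤ (L + 2 * b + a) + (if y ∈ Zm then (M : ℝ) / (2 * i0) else 0) := by
      intro y _
      rw [hf y, hMe]
      have h3 := hu y
      have h4 := hfl y
      have h5 : 0 ≤ (if y ∈ Zm then (M : ℝ) / (2 * i0) else 0) := by
        split_ifs
        · exact hcM.le
        · exact le_rfl
      rw [abs_le] at h3 h4 ⊢
      constructor <;> linarith
    calc ∑ y ∈ P, |f y| ≤ ∑ y ∈ P, ((L + 2 * b + a) +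
          (if y ∈ Zm then (M : ℝ) / (2 * i0) else 0)) := Finset.sum_le_sum h2
      _ = P.card * (L + 2 * b + a) + (M : ℝ) / (2 * i0) * n := by
        rw [Finset.sum_add_distrib, hspec, Finset.sum_const, nsmul_eq_mul]
      _ ≤ (2 * s) * (L + 2 * b + a) + 3 * s * a :=
        add_le_add (mul_le_mul_of_nonneg_right hcard (by linarith)) hnP
      _ = s * (2 * (L + 2 * b + a) + 3 * a) := by ring
  have h2 : |∑ y ∈ P, f y * ((s : ℝ) / (inN O y).card - 1)| ≤ s * (a / 8000) := by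
    calc _ ≤ ∑ y ∈ P, |f y * ((s : ℝ) / (inN O y).card - 1)| := Finset.abs_sum_le_sum_abs _ _
      _ ≤ ∑ y ∈ P, |f y| * (2 * e) := by
        refine Finset.sum_le_sum fun y _ => ?_
        rw [abs_mul]
        exact mul_le_mul_of_nonneg_left (hcy y) (abs_nonneg _)
      _ = (∑ y ∈ P, |f y|) * (2 * e) := by rw [Finset.sum_mul]
      _ ≤ (s * (2 * (L + 2 * b + a) + 3 * a)) * (2 * e) :=
        mul_le_mul_of_nonneg_right hsf (by linarith)
      _ = s * (2 * e * (2 * (L + 2 * b + a) + 3 * a)) := by ring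
      _ ≤ s * (a / 8000) := mul_le_mul_of_nonneg_left n3 hs'.le
  have h3 : ∑ y ∈ P, f y * ((s : ℝ) / (inN O y).card) =
      (∑ y ∈ P, f y) + ∑ y ∈ P, f y * ((s : ℝ) / (inN O y).card - 1) := by
    rw [← Finset.sum_add_distrib]
    refine Finset.sum_congr rfl fun y _ => ?_
    ring
  rw [h3]
  calc _ ≤ |∑ y ∈ P, f y| + |∑ y ∈ P, f y * ((s : ℝ) / (inN O y).card - 1)| := abs_add_le _ _
    _ ≤ s * (a / 4000) + s * (a / 8000) := add_le_add h1 h2
    _ ≤ s * (a / 2000) := by nlinarith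

/-! ### the left over degrees -/

theorem flow {A fl : ℕ → ℝ} {k' T b M' L : ℝ} (hM : 0 < M') (hT : |A 0 - k'| ≤ T)
    (hrec : ∀ j, A (j + 1) = A j / M' + fl j) (hfl : ∀ j, j + 1 < 40 → |fl j| ≤ L)
    (n1 : T / M' ≤ b) (n2 : b + L ≤ T) :
    (∀ j, j < 40 → |A j - k' / M' ^ j| ≤ T) ∧
      ∀ j, j + 1 < 40 → |A (j + 1) - k' / M' ^ (j + 1) - fl j| ≤ b := by
  have key : ∀ j, |A j - k' / M' ^ j| ≤ T → |A (j + 1) - k' / M' ^ (j + 1) - fl j| ≤ b := by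
    intro j hj
    have h1 : A (j + 1) - k' / M' ^ (j + 1) - fl j = (A j - k' / M' ^ j) / M' := by
      rw [hrec j, pow_succ, ← div_div]
      ring
    rw [h1, abs_div, abs_of_pos hM]
    exact le_trans (div_le_div_of_nonneg_right hj hM.le) n1
  have h1 : ∀ j, j < 40 → |A j - k' / M' ^ j| ≤ T := by
    intro j
    induction j with
    | zero => intro _; simpa using hT
    | succ j ih =>
      intro hj
      have h2 := key j (ih (by omega))
      have h3 := hfl j hj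
      have h4 : A (j + 1) - k' / M' ^ (j + 1) = (A (j + 1) - k' / M' ^ (j + 1) - fl j) + fl j := by
        ring
      rw [h4]
      exact le_trans (abs_add_le _ _) (by linarith)
  exact ⟨h1, fun j hj => key j (h1 j (by omega))⟩

/-- the decomposition of the label free field -/
theorem dec {k' T b L c ep : ℝ} {s : ℕ} (hM : (0 : ℝ) < M) (deg fl : ℕ → V → ℝ)
    (bs : Fin 40 → V → ℝ) (m : Fin 40 → ℕ) (Nb : Fin 40 → V → Finset V)
    (hrec : ∀ j y, deg (j + 1) y = deg j y / M + fl j y) (h0 : ∀ y, |deg 0 y - k'| ≤ T)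
    (hfl : ∀ j, j + 1 < 40 → ∀ y, |fl j y| ≤ L)
    (hs : ∀ (j : ℕ) (g' : Fin 40), (g' : ℕ) = j + 1 → ∀ x, |∑ y ∈ Nb g' x, fl j y| ≤ s * c)
    (row0 : ∀ y, |deg 0 y + bs 0 y - M * (m 0 - ep)| ≤ b)
    (row : ∀ g : Fin 40, g ≠ 0 → ∀ y, |k' / (M : ℝ) ^ (g : ℕ) + bs g y - M * (m g - ep)| ≤ b)
    (hb0 : 0 ≤ b) (hL0 : 0 ≤ L) (hc0 : 0 ≤ c) (n1 : T / M ≤ b) (n2 : b + L ≤ T) (g : Fin 40) :
    ∃ f u : V → ℝ, (∀ y, deg g y + bs g y - M * m g = f y + u y - M * ep) ∧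
      (∀ y, |f y| ≤ L) ∧ (∀ y, |u y| ≤ 2 * b) ∧ ∀ x, |∑ y ∈ Nb g x, f y| ≤ s * c := by
  rcases Nat.eq_zero_or_pos (g : ℕ) with hg | hg
  · have hg0 : g = 0 := Fin.ext hg
    subst hg0
    refine ⟨fun _ => 0, fun y => deg 0 y + bs 0 y - M * (m 0 - ep), ?_, ?_, ?_, ?_⟩
    · intro y
      show deg 0 y + bs 0 y - M * m 0 = _
      ring
    · intro y
      simpa using hL0
    · intro y
      exact le_trans (row0 y) (by linarith)
    · intro x
      simp only [Finset.sum_const_zero, abs_zero]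
      positivity
  · obtain ⟨j, hj⟩ : ∃ j, (g : ℕ) = j + 1 := ⟨(g : ℕ) - 1, by omega⟩
    have hj40 : j + 1 < 40 := by have := g.2; omega
    have hg0 : g ≠ 0 := by
      rintro rfl
      simp at hg
    refine ⟨fl j, fun y => (deg (j + 1) y - k' / (M : ℝ) ^ (j + 1) - fl j y) +
      (k' / (M : ℝ) ^ (g : ℕ) + bs g y - M * (m g - ep)), ?_, hfl j hj40, ?_, hs j g hj⟩
    · intro y
      rw [hj]
      ring
    · intro y
      have h1 := (flow (A := fun j => deg j y) (fl := fun j => fl j y) (k' := k') (T := T)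
        (b := b) (L := L) hM (h0 y) (fun j => hrec j y) (fun j hj => hfl j hj y) n1 n2).2 j hj40
      have h2 := row g hg0 y
      refine le_trans (abs_add_le _ _) ?_
      have h3 : |deg (j + 1) y - k' / (M : ℝ) ^ (j + 1) - fl j y| ≤ b := h1
      linarith

/-! ### one row -/

theorem alg1 {I M' m P S : ℝ} (hI : 0 < I) (hM : 0 < M') :
    I / M' * (P + S - (P + S - M' * m + M' / (2 * I))) = I * m - 1 / 2 := by
  field_simp
  ring

theorem alg2 {I M' m P S : ℝ} (hM : 0 < M') :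
    I / M' * (P + S - (P + S - M' * m + 0)) = I * m - 0 := by
  field_simp
  ring

theorem alg3 {I M' ep : ℝ} (hM : 0 < M') : 2 * I * ep = I / M' * (2 * (M' * ep)) := by
  field_simp

theorem trunc_of {t : ℝ} (h : |t| ≤ M) : trunc M t = t := by
  unfold trunc
  rw [abs_le] at h
  rw [min_eq_right h.2, max_eq_right h.1]

theorem row_host [Fact M.Prime] {γ : ℝ} {k s q : ℕ} (D : Dat V M) (h : V → ZMod M) (hD : DOk k D)
    (hDs : D.s = s) (hs : 0 < s) (hq : 0 < q) (m : ℕ) (Zp Zm : Finset V) (x : V)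
    (bp bm fp fm up um : V → ℝ) {a b c e L : ℝ}
    (h1 : ∀ x, D.fp x = trunc M (bp x + if x ∈ Zp then (M : ℝ) / (2 * D.I.card) else 0))
    (h2 : ∀ x, D.fm x = trunc M (bm x + if x ∈ Zm then (M : ℝ) / (2 * D.I.card) else 0))
    (h3 : ∀ x, ((outN D.R x).card : ℝ) + (∑ y ∈ outN D.O x, D.β x y) - M * m = bp x)
    (h4 : ∀ x, bp x = fp x + up x - M * eps γ k M) (h5 : ∀ x, bm x = fm x + um x - M * eps γ k M)
    (h6 : ∀ x, |fp x| ≤ L) (h7 : ∀ x, |fm x| ≤ L) (h8 : ∀ x, |up x| ≤ 2 * b)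
    (h9 : ∀ x, |um x| ≤ 2 * b) (h10 : |∑ y ∈ outN D.O x, fm y| ≤ s * c)
    (hz : |(((outN D.O x) ∩ Zm).card : ℝ) - zet γ k M D.I.card * (outN D.O x).card| ≤
      zet γ k M D.I.card * s / 8000)
    (hbad : |err q D h x - fld (.P .f) D h x (h x) ∅| ≤ (k : ℝ) ^ (-1.019 : ℝ))
    (ha : a = (k : ℝ) ^ (-γ)) (ha0 : 0 < a) (hb0 : 0 ≤ b) (hL0 : 0 ≤ L)
    (he : e = (k : ℝ) ^ (-0.4 : ℝ)) (he0 : 0 ≤ e)
    (n1 : e ≤ 1 / 2) (n2 : 4 * b + c ≤ a / 8000)
    (n3 : 2 * e * (2 * (L + 2 * b + a) + 3 * a) ≤ a / 8000)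
    (n4 : (s : ℝ) * (k : ℝ) ^ (-1.019 : ℝ) ≤ a / 2000)
    (n7 : L + 2 * b + a ≤ (M : ℝ) / 2) (n10 : (5 : ℝ) < s / 2) :
    |(od (hst D.R D.I h) x : ℝ) + ow (hst D.O D.I h) (fun e => wgt q D h e.1 e.2) x -
      ((D.I.card * m : ℕ) - if x ∈ Zp then (1 : ℝ) / 2 else 0)| ≤ zet γ k M D.I.card / 1000 := by
  have hM0 : 0 < M := (Fact.out : M.Prime).pos
  have hM : (0 : ℝ) < M := by exact_mod_cast hM0
  have hIn : D.I.Nonempty := ⟨_, hD.I1⟩
  have hIc : 0 < D.I.card := Finset.card_pos.2 hIn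
  have hI : (0 : ℝ) < D.I.card := by exact_mod_cast hIc
  have hI2 : (2 : ℝ) ≤ D.I.card := by
    have : 2 ≤ D.I.card := by
      rw [← Finset.card_pair hD.I12]
      apply Finset.card_le_card
      intro t ht
      rw [Finset.mem_insert, Finset.mem_singleton] at ht
      rcases ht with rfl | rfl
      · exact hD.I1
      · exact hD.I2
    exact_mod_cast this
  have hs' : (0 : ℝ) < s := by exact_mod_cast hs
  have hMe : (M : ℝ) * eps γ k M = a := by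
    unfold eps
    rw [← ha]
    exact mul_div_cancel₀ a hM.ne'
  have hsp : ∀ (Z : Finset V) (y : V), 0 ≤ (if y ∈ Z then (M : ℝ) / (2 * D.I.card) else 0) ∧
      (if y ∈ Z then (M : ℝ) / (2 * D.I.card) else 0) ≤ (M : ℝ) / 4 := by
    intro Z y
    split_ifs
    · refine ⟨by positivity, ?_⟩
      exact div_le_div_of_nonneg_left hM.le (by norm_num) (by linarith)
    · exact ⟨le_rfl, by positivity⟩
  have tr : ∀ (Z : Finset V) (bb ff uu : V → ℝ), (∀ x, bb x = ff x + uu x - M * eps γ k M) →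
      (∀ x, |ff x| ≤ L) → (∀ x, |uu x| ≤ 2 * b) → ∀ y,
      trunc M (bb y + if y ∈ Z then (M : ℝ) / (2 * D.I.card) else 0) =
        bb y + if y ∈ Z then (M : ℝ) / (2 * D.I.card) else 0 := by
    intro Z bb ff uu e1 e2 e3 y
    apply trunc_of
    have s1 := hsp Z y
    have s2 := e2 y
    have s3 := e3 y
    rw [e1 y, hMe]
    rw [abs_le] at s2 s3 ⊢
    constructor <;> linarith [s1.1, s1.2, s2.1, s2.2, s3.1, s3.2]
  have hfp : ∀ y, D.fp y = bp y + if y ∈ Zp then (M : ℝ) / (2 * D.I.card) else 0 := by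
    intro y
    rw [h1 y, tr Zp bp fp up h4 h6 h8 y]
  have hfm : ∀ y, D.fm y = bm y + if y ∈ Zm then (M : ℝ) / (2 * D.I.card) else 0 := by
    intro y
    rw [h2 y, tr Zm bm fm um h5 h7 h9 y]
  have hok : Ok D x := by
    refine ⟨by rw [hDs]; exact hs, hIn, ?_⟩
    have s1 := (hD.dO x).1
    rw [← he, hDs] at s1
    have s2 := (abs_le.1 s1).1
    have s3 : (s : ℝ) / 2 ≤ (outN D.O x).card := by nlinarith
    have s4 : (5 : ℝ) < (outN D.O x).card := by linarith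
    exact_mod_cast s4
  have hreg : NReg k s D.O := by
    have := hD.dO
    rwa [hDs] at this
  have havg := avg_fm hM0 hIc hs hreg x hz D.fm fm um ha ha0 hb0 hL0 he he0 n1 n2 n3
    (fun y => by rw [hfm y, h5 y]) h9 h7 h10
  have hmain := row_main D h hD.I1 hD.I2 hD.I12 q hq x hok ((k : ℝ) ^ (-1.019 : ℝ)) (a / 2000)
    hbad (by rw [hDs]; exact havg)
  have hc : (D.I.card / M : ℝ) * ((outN D.R x).card + (∑ y ∈ outN D.O x, D.β x y) - D.fp x) =
      ((D.I.card * m : ℕ) - if x ∈ Zp then (1 : ℝ) / 2 else 0) := by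
    rw [hfp x, ← h3 x, Nat.cast_mul]
    split_ifs
    · exact alg1 hI hM
    · exact alg2 hM
  rw [hc] at hmain
  refine le_trans hmain ?_
  have hz0 : zet γ k M D.I.card = (D.I.card / M : ℝ) * (2 * a) := by
    unfold zet
    rw [← hMe]
    exact alg3 hM
  rw [hz0, hDs]
  have : (D.I.card / M : ℝ) * (2 * a) / 1000 = (D.I.card / M : ℝ) * (a / 500) := by ring
  rw [this]
  refine mul_le_mul_of_nonneg_left ?_ (div_pos hI hM).le
  linarith

/-! ### reversal -/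

theorem outN_swap (A : Set (V × V)) (x : V) : outN (Prod.swap ⁻¹' A) x = inN A x := by
  ext y
  rw [H82.mem_outN, H82.mem_inN]
  rfl

theorem inN_swap (A : Set (V × V)) (x : V) : inN (Prod.swap ⁻¹' A) x = outN A x := by
  ext y
  rw [H82.mem_outN, H82.mem_inN]
  rfl

theorem mem_hst_swap (A : Set (V × V)) (I : Finset (ZMod M)) (h : V → ZMod M) (a b : V) :
    (a, b) ∈ hst (Prod.swap ⁻¹' A) I (-h) ↔ (b, a) ∈ hst A I h := by
  unfold hst
  simp only [mem_filter, mem_univ, true_and, Set.mem_preimage, Prod.swap_prod_mk, Pi.neg_apply]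
  have : -h b - -h a = h a - h b := by ring
  rw [this]

theorem ow_swap (A : Set (V × V)) (I : Finset (ZMod M)) (h : V → ZMod M) (w w' : V × V → ℝ)
    (hw : ∀ a b, w' (b, a) = w (a, b)) (y : V) :
    ow (hst (Prod.swap ⁻¹' A) I (-h)) w' y = iw (hst A I h) w y := by
  unfold ow iw
  refine Finset.sum_bij' (fun e _ => e.swap) (fun e _ => e.swap) ?_ ?_ ?_ ?_ ?_
  · rintro ⟨a, b⟩ he
    rw [mem_filter] at he ⊢
    exact ⟨(mem_hst_swap A I h a b).1 he.1, he.2⟩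
  · rintro ⟨a, b⟩ he
    rw [mem_filter] at he ⊢
    exact ⟨(mem_hst_swap A I h b a).2 he.1, he.2⟩
  · rintro ⟨a, b⟩ _
    rfl
  · rintro ⟨a, b⟩ _
    rfl
  · rintro ⟨a, b⟩ _
    exact hw b a

theorem od_swap (A : Set (V × V)) (I : Finset (ZMod M)) (h : V → ZMod M) (y : V) :
    od (hst (Prod.swap ⁻¹' A) I (-h)) y = idg (hst A I h) y := by
  have h1 := ow_swap A I h (fun _ => 1) (fun _ => 1) (fun _ _ => rfl) y
  unfold ow iw at h1
  simp only [Finset.sum_const, nsmul_eq_mul, mul_one] at h1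
  unfold od idg
  exact_mod_cast h1

theorem wgt_swap (q : ℕ) (D : Dat V M) (h : V → ZMod M) (a b : V) :
    wgt q D.rev (-h) b a = wgt q D h a b := by
  unfold wgt
  have e1 : D.rev.rev = D := rfl
  have e2 : D.rev.β b a = D.β a b := rfl
  rw [e1, e2, neg_neg]
  ring

/-! ### numbers -/

theorem pw {k δ : ℝ} (hk : 1 ≤ k) (h6 : (10 : ℝ) ^ 6 ≤ k ^ δ) {u v : ℝ}
    (huv : u + δ ≤ v) : k ^ u ≤ k ^ v / 10 ^ 6 := by
  have hk0 : 0 < k := by linarith
  rw [le_div_iff₀ (by norm_num)]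
  calc k ^ u * 10 ^ 6 ≤ k ^ u * k ^ δ :=
      mul_le_mul_of_nonneg_left h6 (Real.rpow_nonneg hk0.le _)
    _ = k ^ (u + δ) := (Real.rpow_add hk0 _ _).symm
    _ ≤ k ^ v := Real.rpow_le_rpow_of_exponent_le hk huv

/-- the numbers -/
structure Nums (γ : ℝ) (k M s : ℕ) : Prop where
  a0 : 0 < (k : ℝ) ^ (-γ)
  b0 : 0 ≤ (k : ℝ) ^ (-(2 * γ))
  c0 : 0 ≤ (k : ℝ) ^ (-0.1 : ℝ)
  e0 : 0 ≤ (k : ℝ) ^ (-0.4 : ℝ)
  L0 : 0 ≤ (k : ℝ) ^ (0.24 : ℝ)
  n1 : (k : ℝ) ^ (-0.4 : ℝ) ≤ 1 / 2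
  n2 : 4 * (k : ℝ) ^ (-(2 * γ)) + (k : ℝ) ^ (-0.1 : ℝ) ≤ (k : ℝ) ^ (-γ) / 8000
  n3 : 2 * (k : ℝ) ^ (-0.4 : ℝ) * (2 * ((k : ℝ) ^ (0.24 : ℝ) + 2 * (k : ℝ) ^ (-(2 * γ)) +
    (k : ℝ) ^ (-γ)) + 3 * (k : ℝ) ^ (-γ)) ≤ (k : ℝ) ^ (-γ) / 8000
  n4 : (s : ℝ) * (k : ℝ) ^ (-1.019 : ℝ) ≤ (k : ℝ) ^ (-γ) / 2000
  n5 : (k : ℝ) ^ (0.52 : ℝ) / M ≤ (k : ℝ) ^ (-(2 * γ))
  n6 : (k : ℝ) ^ (-(2 * γ)) + (k : ℝ) ^ (0.24 : ℝ) ≤ (k : ℝ) ^ (0.52 : ℝ)
  n7 : (k : ℝ) ^ (0.24 : ℝ) + 2 * (k : ℝ) ^ (-(2 * γ)) + (k : ℝ) ^ (-γ) ≤ (M : ℝ) / 2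
  n8 : (k : ℝ) ^ (0.01 : ℝ) ≤ (s : ℝ) / M
  n9 : 1 ≤ (k : ℝ) ^ (0.01 : ℝ)
  n10 : (5 : ℝ) < s / 2
  n11 : (k : ℝ) ^ (-γ) ≤ 1
  n12 : (6 : ℝ) ≤ M

theorem num3 {a b e L : ℝ} (pa : 0 < a) (pb : 0 < b) (pe : 0 < e)
    (h1 : e * L ≤ a / 10 ^ 6) (he : e ≤ a / 10 ^ 6) (ha : a ≤ 1 / 10 ^ 6)
    (hb : b ≤ 1 / 10 ^ 6) :
    2 * e * (2 * (L + 2 * b + a) + 3 * a) ≤ a / 8000 := by
  have h2 : e * b ≤ a / 10 ^ 6 := by nlinarith
  have h3 : e * a ≤ a / 10 ^ 6 := by nlinarith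
  nlinarith

theorem nums {γ δ : ℝ} {k M s q : ℕ} (hk : (1 : ℝ) ≤ k) (hγ0 : 0 < γ) (hγ : γ ≤ 0.005)
    (hδ : δ ≤ γ) (hδ' : δ ≤ 0.0005) (h6 : (10 : ℝ) ^ 6 ≤ (k : ℝ) ^ δ)
    (hM : 0 < M) (hp : Par k M s q) : Nums γ k M s := by
  have hk0 : (0 : ℝ) < k := by linarith
  have hM' : (0 : ℝ) < M := by exact_mod_cast hM
  have P : ∀ u : ℝ, 0 < (k : ℝ) ^ u := fun u => Real.rpow_pos_of_pos hk0 u
  have z0 : (k : ℝ) ^ (0 : ℝ) = 1 := Real.rpow_zero _
  have hb := pw hk h6 (u := -(2 * γ)) (v := -γ) (by norm_num at hγ hδ' ⊢; linarith only [hγ0, hγ, hδ, hδ'])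
  have hc := pw hk h6 (u := -0.1) (v := -γ) (by norm_num at hγ hδ' ⊢; linarith only [hγ0, hγ, hδ, hδ'])
  have he := pw hk h6 (u := -0.4) (v := -γ) (by norm_num at hγ hδ' ⊢; linarith only [hγ0, hγ, hδ, hδ'])
  have he0 := pw hk h6 (u := -0.4) (v := 0) (by norm_num at hγ hδ' ⊢; linarith only [hγ0, hγ, hδ, hδ'])
  have ha0 := pw hk h6 (u := -γ) (v := 0) (by norm_num at hγ hδ' ⊢; linarith only [hγ0, hγ, hδ, hδ'])
  have hb0 := pw hk h6 (u := -(2 * γ)) (v := 0) (by norm_num at hγ hδ' ⊢; linarith only [hγ0, hγ, hδ, hδ'])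
  have hbT := pw hk h6 (u := -(2 * γ)) (v := 0.52) (by norm_num at hγ hδ' ⊢; linarith only [hγ0, hγ, hδ, hδ'])
  have hLT := pw hk h6 (u := 0.24) (v := 0.52) (by norm_num at hγ hδ' ⊢; linarith only [hγ0, hγ, hδ, hδ'])
  have hbM := pw hk h6 (u := -(2 * γ)) (v := 0.53) (by norm_num at hγ hδ' ⊢; linarith only [hγ0, hγ, hδ, hδ'])
  have haM := pw hk h6 (u := -γ) (v := 0.53) (by norm_num at hγ hδ' ⊢; linarith only [hγ0, hγ, hδ, hδ'])
  have hLM := pw hk h6 (u := 0.24) (v := 0.53) (by norm_num at hγ hδ' ⊢; linarith only [hγ0, hγ, hδ, hδ'])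
  have hMb := pw hk h6 (u := 0) (v := 0.53) (by norm_num at hγ hδ' ⊢; linarith only [hγ0, hγ, hδ, hδ'])
  have hsb := pw hk h6 (u := 0) (v := 1 - 1 / 400) (by norm_num at hγ hδ' ⊢; linarith only [hγ0, hγ, hδ, hδ'])
  have hs4 := pw hk h6 (u := -0.019) (v := -γ) (by norm_num at hγ hδ' ⊢; linarith only [hγ0, hγ, hδ, hδ'])
  have hLe := pw hk h6 (u := -0.16) (v := -γ) (by norm_num at hγ hδ' ⊢; linarith only [hγ0, hγ, hδ, hδ'])
  have hLe' : (k : ℝ) ^ (-0.4 : ℝ) * (k : ℝ) ^ (0.24 : ℝ) = (k : ℝ) ^ (-0.16 : ℝ) := by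
    rw [← Real.rpow_add hk0]; norm_num
  rw [z0] at he0 ha0 hb0 hMb hsb
  have hMlo := hp.Mlo
  have hMhi := hp.Mhi
  have hslo := hp.slo
  have hshi : (s : ℝ) ≤ k := by exact_mod_cast hp.shi
  have pa : 0 < (k : ℝ) ^ (-γ) := P _
  have pb : 0 < (k : ℝ) ^ (-(2 * γ)) := P _
  have pe : 0 < (k : ℝ) ^ (-0.4 : ℝ) := P _
  have pT : 0 < (k : ℝ) ^ (0.52 : ℝ) := P _
  have pM : 0 < (k : ℝ) ^ (0.53 : ℝ) := P _
  refine ⟨P _, (P _).le, (P _).le, (P _).le, (P _).le, ?_, ?_, ?_, ?_, ?_, ?_, ?_, ?_, ?_, ?_, ?_,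
    ?_⟩
  · exact le_trans he0 (by norm_num)
  · linarith only [hb, hc, pa]
  · exact num3 pa pb pe (by rw [hLe']; exact hLe) he ha0 hb0
  · calc (s : ℝ) * (k : ℝ) ^ (-1.019 : ℝ) ≤ (k : ℝ) * (k : ℝ) ^ (-1.019 : ℝ) :=
        mul_le_mul_of_nonneg_right hshi (P _).le
      _ = (k : ℝ) ^ (-0.019 : ℝ) := by
        nth_rewrite 1 [← Real.rpow_one (k : ℝ)]
        rw [← Real.rpow_add hk0]; norm_num
      _ ≤ _ := by
        linarith only [hs4, pa]
  · rw [div_le_iff₀ hM']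
    calc (k : ℝ) ^ (0.52 : ℝ) ≤ (k : ℝ) ^ (-(2 * γ) + 0.53 : ℝ) :=
          Real.rpow_le_rpow_of_exponent_le hk (by norm_num at hγ ⊢; linarith only [hγ])
      _ = (k : ℝ) ^ (-(2 * γ)) * (k : ℝ) ^ (0.53 : ℝ) := Real.rpow_add hk0 _ _
      _ ≤ _ := mul_le_mul_of_nonneg_left hMlo (P _).le
  · linarith only [hbT, hLT, pT]
  · linarith only [hbM, haM, hLM, hMlo, pM]
  · rw [le_div_iff₀ hM']
    calc (k : ℝ) ^ (0.01 : ℝ) * M ≤ (k : ℝ) ^ (0.01 : ℝ) * (k : ℝ) ^ (0.54 : ℝ) :=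
        mul_le_mul_of_nonneg_left hMhi (P _).le
      _ = (k : ℝ) ^ (0.55 : ℝ) := by rw [← Real.rpow_add hk0]; norm_num
      _ ≤ (k : ℝ) ^ (1 - 1 / 400 : ℝ) := Real.rpow_le_rpow_of_exponent_le hk (by norm_num)
      _ ≤ s := hslo
  · exact Real.one_le_rpow hk (by norm_num)
  · have h1 : (10 : ℝ) ^ 6 ≤ s := by
      have h2 : (1 : ℝ) ≤ s / 10 ^ 6 :=
        le_trans hsb (div_le_div_of_nonneg_right hslo (by norm_num))
      rwa [le_div_iff₀ (by norm_num), one_mul] at h2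
    linarith only [h1]
  · exact le_trans ha0 (by norm_num)
  · have h1 : (10 : ℝ) ^ 6 ≤ M := by
      have h2 : (1 : ℝ) ≤ M / 10 ^ 6 :=
        le_trans hMb (div_le_div_of_nonneg_right hMlo (by norm_num))
      rwa [le_div_iff₀ (by norm_num), one_mul] at h2
    exact le_trans (by norm_num) h1

theorem Rg_zero (R : Set (V × V)) (H : V → Fin 40 → ZMod M) : Rg R H 0 = R := by
  ext p
  unfold Rg
  simp

/-! ### ASM -/

theorem asm (hHst : HSTStmt) : ASMStmt := by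
  intro γ hγ0 hγ
  obtain ⟨δ, hδ0, hδ1, hδ2⟩ : ∃ δ : ℝ, 0 < δ ∧ δ ≤ γ ∧ δ ≤ 0.0005 :=
    ⟨min γ 0.0005, lt_min hγ0 (by norm_num), min_le_left _ _, min_le_right _ _⟩
  have hev : ∀ᶠ k : ℕ in Filter.atTop, (10 : ℝ) ^ 6 ≤ (k : ℝ) ^ δ := by
    have h1 := (tendsto_rpow_atTop (y := δ) hδ0).comp (tendsto_natCast_atTop_atTop (R := ℝ))
    exact h1.eventually_ge_atTop _
  obtain ⟨k0, hk0⟩ := Filter.eventually_atTop.1 hev
  refine ⟨max k0 1, ?_⟩
  intro k M s q _ hp hk hpar V _ N k' X hX H hH g d hd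
  have hk1 : (1 : ℝ) ≤ k := by
    have : 1 ≤ k := le_trans (le_max_right _ _) hk
    exact_mod_cast this
  have h6 := hk0 k (le_trans (le_max_left _ _) hk)
  have hM0 : 0 < M := (Fact.out : M.Prime).pos
  have hM : (0 : ℝ) < M := by exact_mod_cast hM0
  have hn := nums hk1 hγ0 hγ hδ1 hδ2 h6 hM0 hpar
  have hDok := H82.dok_dat hX H g hd
  have hDok' := H82.dok_rev hDok
  have hI := H82.card_I hX hd
  have hs0 : 0 < s := by
    have h1 := hn.n10
    have h2 : (0 : ℝ) < s := by linarith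
    exact_mod_cast h2
  have hq0 : 0 < q := by
    have h1 := hpar.qlo
    have h2 : (0 : ℝ) < q := lt_of_lt_of_le (Real.rpow_pos_of_pos (by linarith) _) h1
    exact_mod_cast h2
  obtain ⟨fm, um, hm1, hm2, hm3, hm4⟩ := dec (V := V) (k' := k') (T := (k : ℝ) ^ (0.52 : ℝ))
    (b := (k : ℝ) ^ (-(2 * γ))) (L := (k : ℝ) ^ (0.24 : ℝ)) (c := (k : ℝ) ^ (-0.1 : ℝ))
    (ep := eps γ k M) (s := s) hM (fun j y => ((inN (Rg X.R H j) y).card : ℝ))
    (fun j => flm X.R H j) (fun g y => ∑ x ∈ inN (X.O g) y, X.β g x y) X.m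
    (fun g x => outN (X.O g) x) (fun j y => by unfold flm; ring)
    (fun y => by
      show |((inN (Rg X.R H 0) y).card : ℝ) - k'| ≤ _
      rw [Rg_zero]; exact (hX.r0 y).2)
    (fun j hj y => ((hH y).lf ⟨j, by omega⟩ ⟨j + 1, hj⟩ rfl).m1)
    (fun j g' hj x => ((hH x).lf ⟨j, by have := g'.2; omega⟩ g' hj).p2)
    (fun y => by
      show |((inN (Rg X.R H 0) y).card : ℝ) + _ - _| ≤ _
      rw [Rg_zero]; exact hX.col0 y)
    (fun g hg y => hX.col g hg y) hn.b0 hn.L0 hn.c0 hn.n5 hn.n6 g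
  obtain ⟨fp, up, hp1, hp2, hp3, hp4⟩ := dec (V := V) (k' := k') (T := (k : ℝ) ^ (0.52 : ℝ))
    (b := (k : ℝ) ^ (-(2 * γ))) (L := (k : ℝ) ^ (0.24 : ℝ)) (c := (k : ℝ) ^ (-0.1 : ℝ))
    (ep := eps γ k M) (s := s) hM (fun j y => ((outN (Rg X.R H j) y).card : ℝ))
    (fun j => flp X.R H j) (fun g x => ∑ y ∈ outN (X.O g) x, X.β g x y) X.m
    (fun g x => inN (X.O g) x) (fun j y => by unfold flp; ring)
    (fun y => by
      show |((outN (Rg X.R H 0) y).card : ℝ) - k'| ≤ _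
      rw [Rg_zero]; exact (hX.r0 y).1)
    (fun j hj y => ((hH y).lf ⟨j, by omega⟩ ⟨j + 1, hj⟩ rfl).p1)
    (fun j g' hj x => ((hH x).lf ⟨j, by have := g'.2; omega⟩ g' hj).m2)
    (fun y => by
      show |((outN (Rg X.R H 0) y).card : ℝ) + _ - _| ≤ _
      rw [Rg_zero]; exact hX.row0 y)
    (fun g hg y => hX.row g hg y) hn.b0 hn.L0 hn.c0 hn.n5 hn.n6 g
  have hZ := hX.Z g d hd
  have efp : ∀ x, (X.dat s H g d).fp x = trunc M (((outN (Rg X.R H g) x).card : ℝ) +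
      (∑ y ∈ outN (X.O g) x, X.β g x y) - M * X.m g +
      (if x ∈ X.Zp g d then (M : ℝ) / (2 * (X.dat s H g d).I.card) else 0)) := fun x => rfl
  have efm : ∀ y, (X.dat s H g d).fm y = trunc M (((inN (Rg X.R H g) y).card : ℝ) +
      (∑ x ∈ inN (X.O g) y, X.β g x y) - M * X.m g +
      (if y ∈ X.Zm g d then (M : ℝ) / (2 * (X.dat s H g d).I.card) else 0)) := fun y => rfl
  have hrow : ∀ x, |(od (hst (Rg X.R H g) (X.I d) (lab H g)) x : ℝ) +
      ow (hst (X.O g) (X.I d) (lab H g)) (fun e => wgt q (X.dat s H g d) (lab H g) e.1 e.2) x -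
      (((X.I d).card * X.m g : ℕ) - if x ∈ X.Zp g d then (1 : ℝ) / 2 else 0)| ≤
      zet γ k M (X.I d).card / 1000 := by
    intro x
    exact row_host (X.dat s H g d) (lab H g) hDok rfl hs0 hq0 (X.m g) (X.Zp g d) (X.Zm g d) x
      (fun x => ((outN (Rg X.R H g) x).card : ℝ) + (∑ y ∈ outN (X.O g) x, X.β g x y) -
        M * X.m g)
      (fun y => ((inN (Rg X.R H g) y).card : ℝ) + (∑ x ∈ inN (X.O g) y, X.β g x y) -
        M * X.m g) fp fm up um efp efm (fun _ => rfl) hp1 hm1 hp2 hm2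
      hp3 hm3 (hm4 x) (hZ x).1 (by
        by_contra hcon
        exact (hH x).wp g d hd (Or.inr (lt_of_not_ge hcon)))
      rfl hn.a0 hn.b0 hn.L0 rfl hn.e0 hn.n1 hn.n2 hn.n3 hn.n4 hn.n7 hn.n10
  have hcol : ∀ y, |(idg (hst (Rg X.R H g) (X.I d) (lab H g)) y : ℝ) +
      iw (hst (X.O g) (X.I d) (lab H g)) (fun e => wgt q (X.dat s H g d) (lab H g) e.1 e.2) y -
      (((X.I d).card * X.m g : ℕ) - if y ∈ X.Zm g d then (1 : ℝ) / 2 else 0)| ≤
      zet γ k M (X.I d).card / 1000 := by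
    intro y
    have h1 := row_host (X.dat s H g d).rev (-lab H g) hDok' rfl hs0 hq0 (X.m g) (X.Zm g d)
      (X.Zp g d) y
      (fun y => ((inN (Rg X.R H g) y).card : ℝ) + (∑ x ∈ inN (X.O g) y, X.β g x y) -
        M * X.m g)
      (fun x => ((outN (Rg X.R H g) x).card : ℝ) + (∑ y ∈ outN (X.O g) x, X.β g x y) -
        M * X.m g) fm fp um up efm efp
      (fun x => by
        show ((outN (Prod.swap ⁻¹' (Rg X.R H g)) x).card : ℝ) +
          (∑ y ∈ outN (Prod.swap ⁻¹' (X.O g)) x, X.β g y x) - M * X.m g = _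
        rw [outN_swap, outN_swap])
      hm1 hp1 hm2 hp2 hm3 hp3
      (by
        show |∑ y ∈ outN (Prod.swap ⁻¹' (X.O g)) y, fp y| ≤ _
        rw [outN_swap]; exact hp4 y)
      (by
        show |(((outN (Prod.swap ⁻¹' (X.O g)) y) ∩ X.Zp g d).card : ℝ) -
          zet γ k M (X.I d).card * (outN (Prod.swap ⁻¹' (X.O g)) y).card| ≤ _
        rw [outN_swap]; exact (hZ y).2) (by
        by_contra hcon
        exact (hH y).wm g d hd (Or.inr (lt_of_not_ge hcon)))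
      rfl hn.a0 hn.b0 hn.L0 rfl hn.e0 hn.n1 hn.n2 hn.n3 hn.n4 hn.n7 hn.n10
    have e1 : od (hst (X.dat s H g d).rev.R (X.dat s H g d).rev.I (-lab H g)) y =
        idg (hst (Rg X.R H g) (X.I d) (lab H g)) y := od_swap _ _ _ _
    have e2 : ow (hst (X.dat s H g d).rev.O (X.dat s H g d).rev.I (-lab H g))
        (fun e => wgt q (X.dat s H g d).rev (-lab H g) e.1 e.2) y =
        iw (hst (X.O g) (X.I d) (lab H g)) (fun e => wgt q (X.dat s H g d) (lab H g) e.1 e.2) y :=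
      ow_swap _ _ _ _ _ (fun a b => wgt_swap q _ _ a b) y
    rw [e1, e2] at h1
    exact h1
  have hi2 : (2 : ℝ) ≤ (X.I d).card := by exact_mod_cast hI.1
  have hi3 : ((X.I d).card : ℝ) ≤ 3 := by exact_mod_cast hI.2
  have hsM : (k : ℝ) ^ (0.01 : ℝ) ≤ Dg M s (X.I d).card := by
    unfold Dg
    calc (k : ℝ) ^ (0.01 : ℝ) ≤ (s : ℝ) / M := hn.n8
      _ ≤ (X.I d).card * ((s : ℝ) / M) := by
        have : 0 ≤ (s : ℝ) / M := by positivity
        nlinarith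
      _ = _ := by ring
  have heps : 0 < eps γ k M := div_pos hn.a0 hM
  have hzpos : 0 < zet γ k M (X.I d).card := by
    unfold zet
    have : (0 : ℝ) < (X.I d).card := by linarith
    positivity
  have hok : HostOk (hst (Rg X.R H g) (X.I d) (lab H g)) (hst (X.O g) (X.I d) (lab H g))
      (fun e => wgt q (X.dat s H g d) (lab H g) e.1 e.2) ((X.I d).card * X.m g)
      (X.Zp g d) (X.Zm g d) (zet γ k M (X.I d).card) (Dg M s (X.I d).card) (KK k) := by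
    refine ⟨hzpos, le_trans hn.n9 hsM, hsM, ?_, hrow, hcol, ?_, fun x => ((hH x).hd g d hd).dp,
      fun x => ((hH x).hd g d hd).dm, fun x => ((hH x).hd g d hd).mp,
      fun x => ((hH x).hd g d hd).mm, fun x => ((hH x).hd g d hd).kp,
      fun x => ((hH x).hd g d hd).km⟩
    · rintro ⟨x, y⟩ he
      have heO : (x, y) ∈ X.O g := by
        unfold hst at he
        exact (mem_filter.1 he).2.1
      have h1 : |half q (X.dat s H g d) (lab H g) x y| ≤ 1 / 50 := by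
        by_contra hcon
        exact (hH x).wp g d hd (Or.inl ⟨y, heO, lt_of_not_ge hcon⟩)
      have h2 : |half q (X.dat s H g d).rev (-lab H g) y x| ≤ 1 / 50 := by
        by_contra hcon
        exact (hH y).wm g d hd (Or.inl ⟨x, heO, lt_of_not_ge hcon⟩)
      have h3 := hX.β g x y
      show 1 / 4 ≤ X.β g x y + half q (X.dat s H g d) (lab H g) x y +
        half q (X.dat s H g d).rev (-lab H g) y x ∧ X.β g x y +
        half q (X.dat s H g d) (lab H g) x y + half q (X.dat s H g d).rev (-lab H g) y x ≤ 3 / 4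
      rw [abs_le] at h1 h2
      constructor <;> linarith [h1.1, h1.2, h2.1, h2.2, h3.1, h3.2]
    · unfold zet eps
      have h1 : (k : ℝ) ^ (-γ) / M ≤ 1 / 6 := by
        rw [div_le_div_iff₀ hM (by norm_num)]
        have := hn.n11
        have := hn.n12
        linarith
      have h2 : 0 ≤ (k : ℝ) ^ (-γ) / M := (div_pos hn.a0 hM).le
      nlinarith
  have hdis : Disjoint (hst (Rg X.R H g) (X.I d) (lab H g)) (hst (X.O g) (X.I d) (lab H g)) := by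
    rw [Finset.disjoint_left]
    intro e he1 he2
    unfold hst at he1 he2
    have h1 := (mem_filter.1 he1).2.1.1
    have h2 := (mem_filter.1 he2).2.1
    exact Set.disjoint_left.1 (hX.dRO g) h1 h2
  obtain ⟨G, c, g1, g2, g3, g4, g5, g6, g7, g8⟩ := hHst V _ _ _ _ _ _ _ _ _ hdis hok
  exact ⟨G, c, ⟨g1, g2, g3, g4, g5, g6, g7, g8⟩⟩

end Pool.Agent.C4W.H86A
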