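import Pool.Agent.Helper53_C4W.Stm

/-! # C4 theorem, module HST: the classes of one host, from PSH, FLO, KOE -/

set_option autoImplicit false

open scoped BigOperators Classical

namespace Pool.Agent.C4W.H86

open Finset

theorem od_union {V : Type} {A B : Finset (V × V)} (h : Disjoint A B) (x : V) :
    od (A ∪ B) x = od A x + od B x := by
  unfold od
  rw [filter_union, card_union_of_disjoint]
  exact disjoint_filter_filter h

theorem idg_union {V : Type} {A B : Finset (V × V)} (h : Disjoint A B) (x : V) :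
    idg (A ∪ B) x = idg A x + idg B x := by
  unfold idg
  rw [filter_union, card_union_of_disjoint]
  exact disjoint_filter_filter h

/-- exact rows -/
theorem rnd_exact {a g t : ℕ} {r : ℝ} (h : (a : ℝ) + r = t) (h1 : ⌊r⌋ ≤ (g : ℤ))
    (h2 : (g : ℤ) ≤ ⌈r⌉) : a + g = t := by
  have hr : r = ((t - a : ℤ) : ℝ) := by push_cast; linarith
  rw [hr, Int.floor_intCast] at h1
  rw [hr, Int.ceil_intCast] at h2
  omega

/-- special rows -/
theorem rnd_half {a g t : ℕ} {r : ℝ} (h : |(a : ℝ) + r - (t - 1 / 2)| ≤ 1 / 4)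
    (h1 : ⌊r⌋ ≤ (g : ℤ)) (h2 : (g : ℤ) ≤ ⌈r⌉) : a + g = t ∨ a + g + 1 = t := by
  rw [abs_le] at h
  have h3 : ((t - a - 1 : ℤ) : ℝ) ≤ r := by push_cast; linarith [h.1]
  have h4 : r ≤ ((t - a : ℤ) : ℝ) := by push_cast; linarith [h.2]
  have h5 : (t - a - 1 : ℤ) ≤ ⌊r⌋ := Int.le_floor.2 h3
  have h6 : ⌈r⌉ ≤ (t - a : ℤ) := Int.ceil_le.2 h4
  omega

theorem hst (hPsh : PSHStmt) (hFlo : FLOStmt) (hKoe : KOEStmt) : HSTStmt := by
  intro V _ HR HO w t Zp Zm z D K hdis hok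
  obtain ⟨w', hw', hr1, hr2, hc1, hc2⟩ := hPsh V HR HO w t Zp Zm z D K hok
  obtain ⟨G0, hG0, hf1, hf2⟩ := hFlo V HO w' hw'
  have hd0 : Disjoint HR G0 := disjoint_of_subset_right hG0 hdis
  have row1 : ∀ x, x ∉ Zp → od (HR ∪ G0) x = t := by
    intro x hx
    rw [od_union hd0]
    exact rnd_exact (hr1 x hx) (hf1 x).1 (hf1 x).2
  have row2 : ∀ x, od (HR ∪ G0) x = t ∨ od (HR ∪ G0) x + 1 = t := by
    intro x
    by_cases hx : x ∈ Zp
    · rw [od_union hd0]
      exact rnd_half (hr2 x hx) (hf1 x).1 (hf1 x).2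
    · exact Or.inl (row1 x hx)
  have col1 : ∀ y, y ∉ Zm → idg (HR ∪ G0) y = t := by
    intro y hy
    rw [idg_union hd0]
    exact rnd_exact (hc1 y hy) (hf2 y).1 (hf2 y).2
  have col2 : ∀ y, idg (HR ∪ G0) y = t ∨ idg (HR ∪ G0) y + 1 = t := by
    intro y
    by_cases hy : y ∈ Zm
    · rw [idg_union hd0]
      exact rnd_half (hc2 y hy) (hf2 y).1 (hf2 y).2
    · exact Or.inl (col1 y hy)
  obtain ⟨c, hc, hcc⟩ := hKoe V (HR ∪ G0) t
    (fun x => by have := row2 x; omega) (fun y => by have := col2 y; omega)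
  exact ⟨HR ∪ G0, c, subset_union_left, union_subset_union_right hG0, row1, row2, col1, col2,
    hc, hcc⟩

end Pool.Agent.C4W.H86
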