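import Pool.Agent.Helper53_C4W.Stm
import Pool.Agent.Helper14_LA.Konig

/-! # C4 theorem, module KOE: Koenig's theorem for digraphs -/

set_option autoImplicit false

open scoped BigOperators Classical

namespace Pool.Agent.C4W.H86

open Finset

theorem card_sigma_fst {V : Type} [Fintype V] (n : V → ℕ) (v : V) :
    ((univ : Finset (Σ x : V, Fin (n x))).filter fun s => s.1 = v).card = n v := by
  have h : ((univ : Finset (Σ x : V, Fin (n x))).filter fun s => s.1 = v) =
      (univ : Finset (Fin (n v))).map ⟨fun i => ⟨v, i⟩, fun i j hij => by simpa using hij⟩ := by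
    ext ⟨x, i⟩
    simp only [mem_filter, mem_univ, true_and, mem_map]
    constructor
    · rintro rfl
      exact ⟨i, rfl⟩
    · rintro ⟨j, hj⟩
      exact (congrArg Sigma.fst hj).symm
  rw [h, card_map, card_univ, Fintype.card_fin]

theorem sum_od {V : Type} [Fintype V] (F : Finset (V × V)) : ∑ x, od F x = F.card := by
  unfold od
  exact (card_eq_sum_card_fiberwise (f := fun e : V × V => e.1) (s := F)
    (t := (univ : Finset V)) (fun _ _ => by simp)).symm

theorem sum_idg {V : Type} [Fintype V] (F : Finset (V × V)) : ∑ y, idg F y = F.card := by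
  unfold idg
  exact (card_eq_sum_card_fiberwise (f := fun e : V × V => e.2) (s := F)
    (t := (univ : Finset V)) (fun _ _ => by simp)).symm

theorem card_disj {α β : Type} (A : Finset α) (B : Finset β) (p : α ⊕ β → Prop) :
    ((A.disjSum B).filter p).card =
      (A.filter fun a => p (Sum.inl a)).card + (B.filter fun b => p (Sum.inr b)).card := by
  have h : (A.disjSum B).filter p =
      (A.filter fun a => p (Sum.inl a)).disjSum (B.filter fun b => p (Sum.inr b)) := by
    ext x
    rcases x with a | b
    · simp
    · simp
  rw [h, card_disjSum]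

theorem koe : KOEStmt := by
  intro V _ F t h1 h2
  have hcard : Fintype.card (Σ x : V, Fin (t - od F x)) =
      Fintype.card (Σ y : V, Fin (t - idg F y)) := by
    rw [Fintype.card_sigma, Fintype.card_sigma]
    simp only [Fintype.card_fin]
    have e1 : ∑ x, (t - od F x) + ∑ x, od F x = ∑ _x : V, t := by
      rw [← sum_add_distrib]
      exact sum_congr rfl fun x _ => Nat.sub_add_cancel (h1 x)
    have e2 : ∑ y, (t - idg F y) + ∑ y, idg F y = ∑ _x : V, t := by
      rw [← sum_add_distrib]
      exact sum_congr rfl fun y _ => Nat.sub_add_cancel (h2 y)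
    rw [sum_od] at e1
    rw [sum_idg] at e2
    omega
  obtain ⟨e⟩ := Fintype.card_eq.1 hcard
  obtain ⟨l, hl1, hl2, hl3⟩ := Pool.Agent.Helper14_LA.konig
    (α := (V × V) ⊕ (Σ x : V, Fin (t - od F x))) (W := V)
    (Sum.elim (fun a => a.1) fun s => s.1) (Sum.elim (fun a => a.2) fun s => (e s).1) t
    (F.disjSum univ) (by
      intro v
      have h3 : ((F.disjSum univ).filter fun a => (Sum.elim (fun a => a.1) fun s => s.1 :
          (V × V) ⊕ (Σ x : V, Fin (t - od F x)) → V) a = v).card = od F v +
          ((univ : Finset (Σ x : V, Fin (t - od F x))).filter fun s => s.1 = v).card :=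
        card_disj F (univ : Finset (Σ x : V, Fin (t - od F x)))
          (fun a => (Sum.elim (fun a => a.1) fun s => s.1 :
            (V × V) ⊕ (Σ x : V, Fin (t - od F x)) → V) a = v)
      rw [card_sigma_fst, Nat.add_sub_cancel' (h1 v)] at h3
      exact h3) (by
      intro v
      have h3 : ((F.disjSum univ).filter fun a => (Sum.elim (fun a => a.2) fun s => (e s).1 :
          (V × V) ⊕ (Σ x : V, Fin (t - od F x)) → V) a = v).card = idg F v +
          ((univ : Finset (Σ x : V, Fin (t - od F x))).filter fun s => (e s).1 = v).card :=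
        card_disj F (univ : Finset (Σ x : V, Fin (t - od F x)))
          (fun a => (Sum.elim (fun a => a.2) fun s => (e s).1 :
            (V × V) ⊕ (Σ x : V, Fin (t - od F x)) → V) a = v)
      have h5 : ((univ : Finset (Σ x : V, Fin (t - od F x))).filter fun s => (e s).1 = v).card =
          ((univ : Finset (Σ y : V, Fin (t - idg F y))).filter fun s => s.1 = v).card := by
        refine card_bij (fun s _ => e s) ?_ ?_ ?_
        · intro s hs
          rw [mem_filter] at hs ⊢
          exact ⟨mem_univ _, hs.2⟩
        · intro s _ s' _ hss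
          exact e.injective hss
        · intro s hs
          rw [mem_filter] at hs
          refine ⟨e.symm s, ?_, e.apply_symm_apply s⟩
          rw [mem_filter, e.apply_symm_apply]
          exact ⟨mem_univ _, hs.2⟩
      rw [h5, card_sigma_fst, Nat.add_sub_cancel' (h2 v)] at h3
      exact h3)
  refine ⟨fun a => l (Sum.inl a), ?_, ?_⟩
  · intro a ha
    exact hl1 _ (by simpa using ha)
  · intro a ha b hb hab
    have ha' : (Sum.inl a : (V × V) ⊕ (Σ x : V, Fin (t - od F x))) ∈ F.disjSum univ := by
      simpa using ha
    have hb' : (Sum.inl b : (V × V) ⊕ (Σ x : V, Fin (t - od F x))) ∈ F.disjSum univ := by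
      simpa using hb
    exact ⟨fun h => Sum.inl_injective (hl2 _ ha' _ hb' hab h),
      fun h => Sum.inl_injective (hl3 _ ha' _ hb' hab h)⟩

end Pool.Agent.C4W.H86
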