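import Pool.Agent.Helper53_C4W.Stm2

/-! # C4 theorem, module MRG: one coordinate of the labels -/

set_option autoImplicit false

open scoped BigOperators Classical

namespace Pool.Agent.C4W.H86

open Finset

theorem repl_repl {V α : Type} {G : ℕ} (g : Fin G) (H : V → Fin G → α) (h : V → α) :
    repl g (repl g H h) (fun v => H v g) = H := by
  funext v i
  unfold repl
  by_cases hi : i = g
  · rw [if_pos hi, hi]
  · rw [if_neg hi, if_neg hi]

theorem repl_self {V α : Type} {G : ℕ} (g : Fin G) (H : V → Fin G → α) (h : V → α) :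
    (fun v => repl g H h v g) = h := by
  funext v
  unfold repl
  rw [if_pos rfl]

theorem mrg : MRGStmt := by
  intro V α _ _ _ G g P δ hδ h
  have hinv : Function.Involutive (fun p : (V → Fin G → α) × (V → α) =>
      ((repl g p.1 p.2, fun v => p.1 v g) : (V → Fin G → α) × (V → α))) := by
    intro p
    exact Prod.ext (repl_repl g p.1 p.2) (repl_self g p.1 p.2)
  have h1 : ∑ p : (V → Fin G → α) × (V → α), (if repl g p.1 p.2 ∈ P then (1 : ℝ) else 0) =
      ∑ p : (V → Fin G → α) × (V → α), (if p.1 ∈ P then (1 : ℝ) else 0) :=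
    Equiv.sum_comp hinv.toPerm (fun p => if p.1 ∈ P then (1 : ℝ) else 0)
  have hα : (0 : ℝ) < (Fintype.card α : ℝ) ^ Fintype.card V := by
    have : 0 < Fintype.card α := Fintype.card_pos
    positivity
  have h2 : ∑ p : (V → Fin G → α) × (V → α), (if p.1 ∈ P then (1 : ℝ) else 0) =
      P.card * (Fintype.card α : ℝ) ^ Fintype.card V := by
    rw [Fintype.sum_prod_type]
    have h3 : (univ.filter fun H : V → Fin G → α => H ∈ P) = P := by
      ext H
      simp
    calc ∑ H : V → Fin G → α, ∑ _h : V → α, (if H ∈ P then (1 : ℝ) else 0)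
        = ∑ H : V → Fin G → α, (Fintype.card α : ℝ) ^ Fintype.card V *
            (if H ∈ P then (1 : ℝ) else 0) := by
          refine sum_congr rfl fun H _ => ?_
          rw [sum_const, card_univ, Fintype.card_fun, nsmul_eq_mul]
          push_cast
          rfl
      _ = P.card * (Fintype.card α : ℝ) ^ Fintype.card V := by
          rw [← mul_sum, sum_boole, h3, mul_comm]
  have h4 : ∑ p : (V → Fin G → α) × (V → α), (if repl g p.1 p.2 ∈ P then (1 : ℝ) else 0) ≤
      δ * (Fintype.card α : ℝ) ^ Fintype.card V * Fintype.card (V → Fin G → α) := by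
    rw [Fintype.sum_prod_type]
    calc ∑ H : V → Fin G → α, ∑ h : V → α, (if repl g H h ∈ P then (1 : ℝ) else 0)
        ≤ ∑ _H : V → Fin G → α, δ * (Fintype.card α : ℝ) ^ Fintype.card V := by
          refine sum_le_sum fun H _ => ?_
          rw [sum_boole]
          exact h H
      _ = δ * (Fintype.card α : ℝ) ^ Fintype.card V * Fintype.card (V → Fin G → α) := by
          rw [sum_const, card_univ, nsmul_eq_mul]
          ring
  rw [h1, h2] at h4
  have h5 : (Fintype.card α : ℝ) ^ Fintype.card V * P.card ≤
      (Fintype.card α : ℝ) ^ Fintype.card V * (δ * Fintype.card (V → Fin G → α)) := by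
    calc (Fintype.card α : ℝ) ^ Fintype.card V * P.card
        = P.card * (Fintype.card α : ℝ) ^ Fintype.card V := mul_comm _ _
      _ ≤ δ * (Fintype.card α : ℝ) ^ Fintype.card V * Fintype.card (V → Fin G → α) := h4
      _ = _ := by ring
  exact le_of_mul_le_mul_left h5 hα

end Pool.Agent.C4W.H86
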