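import Pool.Agent.Helper53_C4W.Stm2

/-! # C4 theorem, module ZRO: no arc of `R` is left over after 40 groups -/

set_option autoImplicit false

open scoped BigOperators Classical

namespace Pool.Agent.C4W.H86

open Finset

/-- two coordinates are equal -/
theorem card_eq_coord {V β : Type} [Fintype V] [Fintype β] {x y : V} (h : x ≠ y)
    (p : (V → β) → Prop) [DecidablePred p] (hp0 : ∀ H, p H → H x = H y) :
    (univ.filter p).card * Fintype.card β ≤ Fintype.card (V → β) := by
  have h1 : ((univ.filter p) ×ˢ (univ : Finset β)).card ≤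
      (univ : Finset (V → β)).card := by
    refine card_le_card_of_injOn (fun p => Function.update p.1 x p.2) (fun _ _ => mem_univ _) ?_
    rintro ⟨H, b⟩ hp ⟨H', b'⟩ hp' he
    have hH : H x = H y := hp0 _ (mem_filter.1 (mem_product.1 hp).1).2
    have hH' : H' x = H' y := hp0 _ (mem_filter.1 (mem_product.1 hp').1).2
    have hb : b = b' := by
      have := congrFun he x
      simpa using this
    have hne : ∀ v, v ≠ x → H v = H' v := by
      intro v hv
      have := congrFun he v
      simpa [Function.update_of_ne hv] using this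
    have hxx : H x = H' x := by
      rw [hH, hH']
      exact hne y h.symm
    have hHH : H = H' := by
      funext v
      by_cases hv : v = x
      · rw [hv]; exact hxx
      · exact hne v hv
    rw [hHH, hb]
  rw [card_product, card_univ, card_univ] at h1
  exact h1

theorem zro : ZROStmt := by
  refine ⟨1, ?_⟩
  intro k M s q _ _ hk hpar V _ R hR x hx
  have hk1 : (1 : ℝ) ≤ k := by exact_mod_cast hk
  have hk0 : (0 : ℝ) < k := by linarith
  have hM : (k : ℝ) ^ (0.53 : ℝ) ≤ M := hpar.Mlo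
  have hM0 : (0 : ℝ) < M := lt_of_lt_of_le (Real.rpow_pos_of_pos hk0 _) hM
  set N : ℝ := (Fintype.card (V → Fin 40 → ZMod M) : ℝ) with hN
  have hN0 : 0 ≤ N := by rw [hN]; positivity
  have hcoord : ∀ y ∈ outN R x,
      ((univ.filter fun H : V → Fin 40 → ZMod M => H x = H y).card : ℝ) * (M : ℝ) ^ 40 ≤ N := by
    intro y hy
    have hxy : x ≠ y := by
      unfold outN at hy
      exact hR (x, y) (mem_filter.1 hy).2
    have h1 := card_eq_coord (β := Fin 40 → ZMod M) hxy (fun H => H x = H y) fun _ h => h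
    have h2 : Fintype.card (Fin 40 → ZMod M) = M ^ 40 := by
      rw [Fintype.card_fun, ZMod.card, Fintype.card_fin]
    rw [h2] at h1
    rw [hN]
    exact_mod_cast h1
  have hsub : (univ.filter fun H : V → Fin 40 → ZMod M => (outN (Rg R H 40) x).Nonempty) ⊆
      (outN R x).biUnion fun y => univ.filter fun H : V → Fin 40 → ZMod M => H x = H y := by
    intro H hH
    obtain ⟨y, hy⟩ := (mem_filter.1 hH).2
    unfold outN at hy
    have hy2 := (mem_filter.1 hy).2
    unfold Rg at hy2
    obtain ⟨hy3, hy4⟩ := hy2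
    rw [mem_biUnion]
    refine ⟨y, ?_, ?_⟩
    · unfold outN
      rw [mem_filter]
      exact ⟨mem_univ _, hy3⟩
    · rw [mem_filter]
      refine ⟨mem_univ _, ?_⟩
      funext i
      exact hy4 i i.2
  have h1 : ((univ.filter fun H : V → Fin 40 → ZMod M =>
      (outN (Rg R H 40) x).Nonempty).card : ℝ) * (M : ℝ) ^ 40 ≤ k * N := by
    have h2 : ((univ.filter fun H : V → Fin 40 → ZMod M =>
        (outN (Rg R H 40) x).Nonempty).card : ℝ) ≤
        ∑ y ∈ outN R x, ((univ.filter fun H : V → Fin 40 → ZMod M => H x = H y).card : ℝ) := by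
      exact_mod_cast (card_le_card hsub).trans card_biUnion_le
    calc _ ≤ (∑ y ∈ outN R x,
          ((univ.filter fun H : V → Fin 40 → ZMod M => H x = H y).card : ℝ)) * (M : ℝ) ^ 40 :=
          mul_le_mul_of_nonneg_right h2 (by positivity)
      _ = ∑ y ∈ outN R x,
          ((univ.filter fun H : V → Fin 40 → ZMod M => H x = H y).card : ℝ) * (M : ℝ) ^ 40 :=
          sum_mul _ _ _
      _ ≤ ∑ _y ∈ outN R x, N := sum_le_sum hcoord
      _ = (outN R x).card * N := by rw [sum_const, nsmul_eq_mul]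
      _ ≤ k * N := mul_le_mul_of_nonneg_right (by exact_mod_cast hx) hN0
  have h3 : (k : ℝ) ≤ (k : ℝ) ^ (-20 : ℝ) * (M : ℝ) ^ 40 := by
    have h4 : (k : ℝ) ^ (21.2 : ℝ) ≤ (M : ℝ) ^ 40 := by
      calc (k : ℝ) ^ (21.2 : ℝ) = ((k : ℝ) ^ (0.53 : ℝ)) ^ 40 := by
            rw [← Real.rpow_natCast, ← Real.rpow_mul hk0.le]
            norm_num
        _ ≤ (M : ℝ) ^ 40 := pow_le_pow_left₀ (Real.rpow_nonneg hk0.le _) hM 40
    calc (k : ℝ) = (k : ℝ) ^ (1 : ℝ) := (Real.rpow_one _).symm
      _ ≤ (k : ℝ) ^ (1.2 : ℝ) := Real.rpow_le_rpow_of_exponent_le hk1 (by norm_num)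
      _ = (k : ℝ) ^ (-20 : ℝ) * (k : ℝ) ^ (21.2 : ℝ) := by
          rw [← Real.rpow_add hk0]
          norm_num
      _ ≤ (k : ℝ) ^ (-20 : ℝ) * (M : ℝ) ^ 40 :=
          mul_le_mul_of_nonneg_left h4 (Real.rpow_nonneg hk0.le _)
  have hMp : (0 : ℝ) < (M : ℝ) ^ 40 := by positivity
  apply le_of_mul_le_mul_right _ hMp
  calc _ ≤ (k : ℝ) * N := h1
    _ ≤ (k : ℝ) ^ (-20 : ℝ) * (M : ℝ) ^ 40 * N := mul_le_mul_of_nonneg_right h3 hN0
    _ = (k : ℝ) ^ (-20 : ℝ) * N * (M : ℝ) ^ 40 := by ring

end Pool.Agent.C4W.H86
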